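import Pool.Agent.Y250.SS.Stm

/-!
Linear algebra of a pencil of symmetric `2 × 2` matrices.
-/

set_option autoImplicit false

namespace Pool.Agent.Y988.SS

open Pool.Agent.Y250.SS

theorem quad_nonneg {p q r : ℝ} (hp : 0 ≤ p) (hr : 0 ≤ r) (h : q ^ 2 ≤ p * r) (x y : ℝ) :
    0 ≤ p * x ^ 2 + 2 * q * (x * y) + r * y ^ 2 := by
  rcases hp.eq_or_lt with h0 | h0
  · rw [← h0, zero_mul] at h
    have hq : q = 0 := by
      have : q ^ 2 = 0 := le_antisymm h (sq_nonneg q)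
      exact pow_eq_zero_iff two_ne_zero |>.1 this
    rw [← h0, hq]
    have := mul_nonneg hr (sq_nonneg y)
    linarith
  · have h1 : p * (p * x ^ 2 + 2 * q * (x * y) + r * y ^ 2) =
        (p * x + q * y) ^ 2 + (p * r - q ^ 2) * y ^ 2 := by ring
    have h2 : 0 ≤ p * (p * x ^ 2 + 2 * q * (x * y) + r * y ^ 2) := by
      rw [h1]
      have := mul_nonneg (sub_nonneg.2 h) (sq_nonneg y)
      have := sq_nonneg (p * x + q * y)
      linarith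
    exact nonneg_of_mul_nonneg_right h2 h0

/-- the trace of the product of two nonnegative matrices -/
theorem trace_nonneg {p q r e f g : ℝ} (hp : 0 ≤ p) (hr : 0 ≤ r) (h : q ^ 2 ≤ p * r) (he : 0 ≤ e)
    (hg : 0 ≤ g) (hf : f ^ 2 ≤ e * g) : 0 ≤ g * p + 2 * f * q + e * r := by
  have h1 : 0 ≤ g * p + e * r := add_nonneg (mul_nonneg hg hp) (mul_nonneg he hr)
  have h2 : (2 * f * q) ^ 2 ≤ (g * p + e * r) ^ 2 := by
    have h3 : f ^ 2 * q ^ 2 ≤ (e * g) * (p * r) :=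
      mul_le_mul hf h (sq_nonneg q) (mul_nonneg he hg)
    nlinarith [sq_nonneg (g * p - e * r)]
  have h3 := abs_le_of_sq_le_sq h2 h1
  linarith [(abs_le.1 h3).1]

theorem det_ge {e f g : ℝ} (h : GE1 e f g) : e + g - 1 ≤ e * g - f ^ 2 := by
  have := h.2.2
  nlinarith

theorem det_one {e f g : ℝ} (h : GE1 e f g) : 1 ≤ e * g - f ^ 2 := by
  have := det_ge h
  linarith [h.1, h.2.1]

/-- nondegeneracy -/
theorem nd : S_ND := by
  intro s α β γ e f g hs hG hC a b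
  obtain ⟨he, hg, hf⟩ := hG
  have hD := det_ge ⟨he, hg, hf⟩
  have hD1 := det_one ⟨he, hg, hf⟩
  obtain ⟨hC1, hC2⟩ := hC
  obtain ⟨D, hDe⟩ : ∃ D, D = e * g - f ^ 2 := ⟨_, rfl⟩
  obtain ⟨T, hTe⟩ : ∃ T, T = g * α - 2 * f * β + e * γ := ⟨_, rfl⟩
  obtain ⟨d, hde⟩ : ∃ d, d = α * γ - β ^ 2 := ⟨_, rfl⟩
  rw [← hDe] at hD hD1
  rw [← hDe, ← hTe, ← hde] at hC1 hC2
  obtain ⟨p, hp⟩ : ∃ p, p = T * α - (d + s ^ 2 * D) * e := ⟨_, rfl⟩
  obtain ⟨q, hq⟩ : ∃ q, q = T * β - (d + s ^ 2 * D) * f := ⟨_, rfl⟩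
  obtain ⟨r, hr⟩ : ∃ r, r = T * γ - (d + s ^ 2 * D) * g := ⟨_, rfl⟩
  have hdet : p * r - q ^ 2 = D * ((d + s ^ 2 * D) ^ 2 - s ^ 2 * T ^ 2) := by
    have h1 : p * r - q ^ 2 = T ^ 2 * (α * γ - β ^ 2) -
        T * (d + s ^ 2 * D) * (g * α - 2 * f * β + e * γ) +
        (d + s ^ 2 * D) ^ 2 * (e * g - f ^ 2) := by
      rw [hp, hq, hr]
      ring
    rw [h1, ← hDe, ← hTe, ← hde]
    ring
  have htr : g * p - 2 * f * q + e * r = T ^ 2 - 2 * D * d - 2 * s ^ 2 * D ^ 2 := by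
    have h1 : g * p - 2 * f * q + e * r = T * (g * α - 2 * f * β + e * γ) -
        2 * (d + s ^ 2 * D) * (e * g - f ^ 2) := by
      rw [hp, hq, hr]
      ring
    rw [h1, ← hDe, ← hTe]
    ring
  have hpos : 0 < p * r - q ^ 2 := by
    rw [hdet]
    exact mul_pos (by linarith) hC2
  have hpr : 0 < p * r := by nlinarith [sq_nonneg q]
  have hf' : f ^ 2 ≤ e * g := by nlinarith
  have hp0 : 0 < p := by
    by_contra hcon
    push Not at hcon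
    have hp1 : p < 0 := lt_of_le_of_ne hcon (by rintro rfl; simp at hpr)
    have hr1 : r < 0 := by
      by_contra hc
      push Not at hc
      have := mul_nonpos_of_nonpos_of_nonneg hp1.le hc
      linarith
    have h1 := trace_nonneg (p := -p) (q := q) (r := -r) (e := e) (f := f) (g := g)
      (by linarith) (by linarith) (by nlinarith) (by linarith) (by linarith) hf'
    rw [← htr] at hC1
    linarith
  have hr0 : 0 < r := (mul_pos_iff_of_pos_left hp0).1 hpr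
  obtain ⟨x, hx⟩ : ∃ x, x = α * a + β * b := ⟨_, rfl⟩
  obtain ⟨y, hy⟩ : ∃ y, y = β * a + γ * b := ⟨_, rfl⟩
  rw [← hx, ← hy]
  have i1 : g * x ^ 2 - 2 * f * (x * y) + e * y ^ 2 =
      T * (α * a ^ 2 + 2 * β * (a * b) + γ * b ^ 2) -
      d * (e * a ^ 2 + 2 * f * (a * b) + g * b ^ 2) := by
    rw [hx, hy, hTe, hde]
    ring
  have i2 := quad_nonneg hp0.le hr0.le (by linarith : q ^ 2 ≤ p * r) a b
  have i3 := quad_nonneg (p := e - 1) (q := f) (r := g - 1) (by linarith) (by linarith) hf a b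
  have i4 := quad_nonneg (p := D - g) (q := f) (r := D - e) (by linarith) (by linarith) (by
    refine hf.trans (mul_le_mul (by linarith) (by linarith) (by linarith) (by linarith))) x y
  have i5 : p * a ^ 2 + 2 * q * (a * b) + r * b ^ 2 =
      T * (α * a ^ 2 + 2 * β * (a * b) + γ * b ^ 2) -
      (d + s ^ 2 * D) * (e * a ^ 2 + 2 * f * (a * b) + g * b ^ 2) := by
    rw [hp, hq, hr]
    ring
  have i6 : 0 ≤ (s ^ 2 * D) * ((e - 1) * a ^ 2 + 2 * f * (a * b) + (g - 1) * b ^ 2) :=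
    mul_nonneg (mul_nonneg (sq_nonneg s) (by linarith)) i3
  have i7 : D * (s ^ 2 * (a ^ 2 + b ^ 2)) ≤ D * (x ^ 2 + y ^ 2) := by
    nlinarith
  exact le_of_mul_le_mul_left i7 (by linarith)

/-- the exceptional values of the parameter -/
theorem tm : S_TM := by
  intro a b c e f g hG
  have hD1 := det_one hG
  obtain ⟨D, hDe⟩ : ∃ D, D = e * g - f ^ 2 := ⟨_, rfl⟩
  obtain ⟨T, hTe⟩ : ∃ T, T = g * a - 2 * f * b + e * c := ⟨_, rfl⟩
  obtain ⟨d, hde⟩ : ∃ d, d = a * c - b ^ 2 := ⟨_, rfl⟩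
  rw [← hDe] at hD1
  have he : 0 < e := by linarith [hG.1]
  have hdisc : 0 ≤ T ^ 2 - 4 * D * d := by
    have h1 : e ^ 2 * (T ^ 2 - 4 * D * d) =
        (e * (e * c - g * a) - 2 * f * (e * b - f * a)) ^ 2 + 4 * D * (e * b - f * a) ^ 2 := by
      rw [hDe, hTe, hde]
      ring
    have h2 : 0 ≤ e ^ 2 * (T ^ 2 - 4 * D * d) := by
      rw [h1]
      positivity
    exact nonneg_of_mul_nonneg_right h2 (by positivity)
  obtain ⟨R, hR⟩ : ∃ R, R = √(T ^ 2 - 4 * D * d) := ⟨_, rfl⟩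
  have hR2 : R ^ 2 = T ^ 2 - 4 * D * d := by rw [hR]; exact Real.sq_sqrt hdisc
  have hD0 : D ≠ 0 := by linarith [hD1] |> fun (h : (0 : ℝ) < D) => h.ne'
  refine ⟨(T + R) / (2 * D), (T - R) / (2 * D), ?_⟩
  intro s τ hs h1 h2
  obtain ⟨t1, ht1⟩ : ∃ t, t = (T + R) / (2 * D) := ⟨_, rfl⟩
  obtain ⟨t2, ht2⟩ : ∃ t, t = (T - R) / (2 * D) := ⟨_, rfl⟩
  rw [← ht1] at h1
  rw [← ht2] at h2
  have e1 : T = D * (t1 + t2) := by
    rw [ht1, ht2]
    field_simp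
    ring
  have e2 : d = D * (t1 * t2) := by
    rw [ht1, ht2]
    field_simp
    linarith [hR2]
  have u1 : s ^ 2 < (t1 - τ) ^ 2 := by
    rw [← sq_abs (t1 - τ), abs_sub_comm]
    exact pow_lt_pow_left₀ h1 hs.le two_ne_zero
  have u2 : s ^ 2 < (t2 - τ) ^ 2 := by
    rw [← sq_abs (t2 - τ), abs_sub_comm]
    exact pow_lt_pow_left₀ h2 hs.le two_ne_zero
  have f1 : g * (a - τ * e) - 2 * f * (b - τ * f) + e * (c - τ * g) = D * ((t1 - τ) + (t2 - τ)) := by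
    have h3 : g * (a - τ * e) - 2 * f * (b - τ * f) + e * (c - τ * g) =
        (g * a - 2 * f * b + e * c) - 2 * τ * (e * g - f ^ 2) := by ring
    rw [h3, ← hTe, ← hDe, e1]
    ring
  have f2 : (a - τ * e) * (c - τ * g) - (b - τ * f) ^ 2 = D * ((t1 - τ) * (t2 - τ)) := by
    have h3 : (a - τ * e) * (c - τ * g) - (b - τ * f) ^ 2 =
        (a * c - b ^ 2) - τ * (g * a - 2 * f * b + e * c) + τ ^ 2 * (e * g - f ^ 2) := by ring
    rw [h3, ← hTe, ← hDe, ← hde, e1, e2]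
    ring
  have hDD : 0 < D ^ 2 := by positivity
  unfold CD
  rw [f1, f2, ← hDe]
  constructor
  · have h3 : (D * ((t1 - τ) + (t2 - τ))) ^ 2 - 2 * D * (D * ((t1 - τ) * (t2 - τ))) -
        2 * s ^ 2 * D ^ 2 = D ^ 2 * (((t1 - τ) ^ 2 - s ^ 2) + ((t2 - τ) ^ 2 - s ^ 2)) := by ring
    rw [h3]
    exact mul_pos hDD (by linarith)
  · have h3 : (D * ((t1 - τ) * (t2 - τ)) + s ^ 2 * D) ^ 2 -
        s ^ 2 * (D * ((t1 - τ) + (t2 - τ))) ^ 2 =
        D ^ 2 * (((t1 - τ) ^ 2 - s ^ 2) * ((t2 - τ) ^ 2 - s ^ 2)) := by ring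
    rw [h3]
    exact mul_pos hDD (mul_pos (by linarith) (by linarith))

/-- monotonicity -/
theorem an : S_AN := by
  intro s s' α β γ e f g hs hss hG hC
  have hD1 := det_one hG
  obtain ⟨hC1, hC2⟩ := hC
  unfold CD
  obtain ⟨D, hDe⟩ : ∃ D, D = e * g - f ^ 2 := ⟨_, rfl⟩
  obtain ⟨T, hTe⟩ : ∃ T, T = g * α - 2 * f * β + e * γ := ⟨_, rfl⟩
  obtain ⟨d, hde⟩ : ∃ d, d = α * γ - β ^ 2 := ⟨_, rfl⟩
  rw [← hDe] at hD1
  rw [← hDe, ← hTe, ← hde] at hC1 hC2 ⊢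
  have hsq : s ^ 2 ≤ s' ^ 2 := pow_le_pow_left₀ hs.le hss 2
  have hDD : 0 ≤ D ^ 2 := sq_nonneg D
  have h1 : s ^ 2 * D ^ 2 ≤ s' ^ 2 * D ^ 2 := mul_le_mul_of_nonneg_right hsq hDD
  refine ⟨by nlinarith, ?_⟩
  have h2 : ((d + s ^ 2 * D) ^ 2 - s ^ 2 * T ^ 2) - ((d + s' ^ 2 * D) ^ 2 - s' ^ 2 * T ^ 2) =
      (s' ^ 2 - s ^ 2) * ((T ^ 2 - 2 * D * d) - (s ^ 2 * D ^ 2 + s' ^ 2 * D ^ 2)) := by ring
  have h3 : 0 ≤ (s' ^ 2 - s ^ 2) * ((T ^ 2 - 2 * D * d) - (s ^ 2 * D ^ 2 + s' ^ 2 * D ^ 2)) :=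
    mul_nonneg (by linarith) (by nlinarith)
  linarith

/-- large parameters -/
theorem lg : S_LG := by
  intro s α β γ e f g hs hG hC
  have hD1 := det_one hG
  obtain ⟨hC1, _⟩ := hC
  have h1 : 1 ≤ (e * g - f ^ 2) ^ 2 := one_le_pow₀ hD1
  have h2 : s ^ 2 * 1 ≤ s ^ 2 * (e * g - f ^ 2) ^ 2 := mul_le_mul_of_nonneg_left h1 (sq_nonneg s)
  have h3 := sq_nonneg s
  nlinarith

/-- the graph is uniformly convex -/
theorem ge : S_GE := by
  intro x hx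
  have h0 : 0 < 1 - x.1 ^ 2 - x.2 ^ 2 := by linarith
  have hh0 : 0 < hh x := Real.sqrt_pos.2 h0
  have hh1 : hh x ≤ 1 := by
    unfold hh
    have := sq_nonneg x.1
    have := sq_nonneg x.2
    exact Real.sqrt_le_iff.2 ⟨zero_le_one, by linarith⟩
  have hu : 1 ≤ 1 / hh x := by
    rw [le_div_iff₀ hh0]
    linarith
  have h3 : 0 < hh x ^ 3 := by positivity
  have ha : 0 ≤ x.1 ^ 2 / hh x ^ 3 := by positivity
  have hb : 0 ≤ x.2 ^ 2 / hh x ^ 3 := by positivity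
  unfold GE1 G11 G12 G22
  refine ⟨by linarith, by linarith, ?_⟩
  have h4 : (x.1 * x.2 / hh x ^ 3) ^ 2 = (x.1 ^ 2 / hh x ^ 3) * (x.2 ^ 2 / hh x ^ 3) := by ring
  rw [h4]
  nlinarith [mul_nonneg (sub_nonneg.2 hu) ha, mul_nonneg (sub_nonneg.2 hu) hb,
    mul_nonneg (sub_nonneg.2 hu) (sub_nonneg.2 hu)]

end Pool.Agent.Y988.SS
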